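import Mathlib

set_option autoImplicit false

namespace Pool.Agent.V1179.DCyc

open MeasureTheory Set Metric Filter Topology
open scoped ENNReal

/-- The measure `(1 - |z|)^(p-1) dA` on the unit disc. -/
noncomputable def nu (p : ℝ) : Measure ℂ :=
  (volume.restrict (ball (0 : ℂ) 1)).withDensity fun z => ENNReal.ofReal ((1 - ‖z‖) ^ (p - 1))

theorem measurable_wt (p : ℝ) :
    Measurable fun z : ℂ => ENNReal.ofReal ((1 - ‖z‖) ^ (p - 1)) := by
  fun_prop

theorem lint_nu (p : ℝ) (g : ℂ → ℝ≥0∞) :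
    ∫⁻ z, g z ∂(nu p) = ∫⁻ z in ball (0 : ℂ) 1, ENNReal.ofReal ((1 - ‖z‖) ^ (p - 1)) * g z := by
  unfold nu
  rw [lintegral_withDensity_eq_lintegral_mul_non_measurable _ (measurable_wt p)]
  · rfl
  · exact Eventually.of_forall fun _ => ENNReal.ofReal_lt_top

/-- Scaling of integrals over discs. -/
theorem scale {τ : ℝ} (hτ : 0 < τ) {F : ℂ → ℝ≥0∞} (hF : Measurable F) :
    ∫⁻ z in ball (0 : ℂ) 1, F ((τ : ℂ) * z) =
      ENNReal.ofReal (τ ^ 2)⁻¹ * ∫⁻ w in ball (0 : ℂ) τ, F w := by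
  have h1 := Measure.map_addHaar_smul (volume : Measure ℂ) hτ.ne'
  have h2 : ∫⁻ w, (ball (0 : ℂ) τ).indicator F w ∂(Measure.map (fun z : ℂ => τ • z) volume)
      = ENNReal.ofReal (τ ^ 2)⁻¹ * ∫⁻ w in ball (0 : ℂ) τ, F w := by
    have h3 : (fun z : ℂ => τ • z) = (τ • ·) := rfl
    rw [h3, h1, lintegral_smul_measure, lintegral_indicator measurableSet_ball]
    simp only [Complex.finrank_real_complex, smul_eq_mul]
    rw [abs_of_pos (by positivity)]
  rw [← h2, lintegral_map (hF.indicator measurableSet_ball) (by fun_prop),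
    ← lintegral_indicator measurableSet_ball]
  congr 1
  funext z
  by_cases hz : z ∈ ball (0 : ℂ) 1
  · have h3 : τ • z ∈ ball (0 : ℂ) τ := by
      rw [mem_ball_zero_iff] at hz ⊢
      rw [norm_smul, Real.norm_eq_abs, abs_of_pos hτ]
      nlinarith [norm_nonneg z]
    rw [indicator_of_mem hz, indicator_of_mem h3, Complex.real_smul]
  · have h3 : τ • z ∉ ball (0 : ℂ) τ := by
      rw [mem_ball_zero_iff] at hz ⊢
      rw [norm_smul, Real.norm_eq_abs, abs_of_pos hτ]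
      push Not at hz ⊢
      nlinarith [norm_nonneg z]
    rw [indicator_of_notMem hz, indicator_of_notMem h3]

/-- The auxiliary function of Hardy's inequality. -/
noncomputable def Hd (g : ℂ → ℂ) (z : ℂ) : ℝ≥0∞ :=
  ∫⁻ τ in Ioo (1 / 2 : ℝ) 1, ‖g (τ * z)‖ₑ * (ENNReal.ofReal (1 - τ * ‖z‖))⁻¹

theorem int_inv_sq {x : ℝ} (h0 : 0 ≤ x) (h1 : x < 1) :
    ∫⁻ τ in Ioo (1 / 2 : ℝ) 1, ((ENNReal.ofReal (1 - τ * x))⁻¹) ^ (2 : ℝ) ≤
      ENNReal.ofReal (1 - x)⁻¹ := by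
  have hpos : ∀ τ ∈ Icc (1 / 2 : ℝ) 1, 0 < 1 - τ * x := by
    intro τ hτ
    nlinarith [hτ.1, hτ.2]
  have hder : ∀ τ ∈ uIcc (1 / 2 : ℝ) 1, HasDerivAt (fun τ => τ / (1 - τ * x))
      (((1 - τ * x) ^ 2)⁻¹) τ := by
    intro τ hτ
    rw [uIcc_of_le (by norm_num)] at hτ
    have h2 := hpos τ hτ
    have h3 := (hasDerivAt_id τ).div (((hasDerivAt_id τ).mul_const x).const_sub 1) h2.ne'
    refine h3.congr_deriv ?_
    simp only [id]
    field_simp
    ring
  have hcont : ContinuousOn (fun τ : ℝ => ((1 - τ * x) ^ 2)⁻¹) (uIcc (1 / 2 : ℝ) 1) := by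
    rw [uIcc_of_le (by norm_num)]
    apply ContinuousOn.inv₀ (by fun_prop)
    intro τ hτ
    have := hpos τ hτ
    positivity
  have hint := intervalIntegral.integral_eq_sub_of_hasDerivAt hder hcont.intervalIntegrable
  have h4 : ∫⁻ τ in Ioo (1 / 2 : ℝ) 1, ((ENNReal.ofReal (1 - τ * x))⁻¹) ^ (2 : ℝ)
      = ∫⁻ τ in Ioo (1 / 2 : ℝ) 1, ENNReal.ofReal (((1 - τ * x) ^ 2)⁻¹) := by
    apply setLIntegral_congr_fun measurableSet_Ioo
    intro τ hτ
    have h5 := hpos τ ⟨hτ.1.le, hτ.2.le⟩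
    simp only
    rw [← ENNReal.ofReal_inv_of_pos h5, ENNReal.ofReal_rpow_of_pos (by positivity)]
    congr 1
    rw [Real.rpow_two, inv_pow]
  rw [h4, ← ofReal_integral_eq_lintegral_ofReal]
  · apply ENNReal.ofReal_le_ofReal
    rw [← integral_Ioc_eq_integral_Ioo, ← intervalIntegral.integral_of_le (by norm_num), hint]
    have h5 := hpos 1 ⟨by norm_num, le_rfl⟩
    have h6 := hpos (1 / 2) ⟨le_rfl, by norm_num⟩
    rw [one_mul] at *
    have h7 : 0 < 1 / 2 / (1 - 1 / 2 * x) := by positivity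
    rw [one_div]
    linarith
  · have := hcont.intervalIntegrable (μ := volume)
    rw [intervalIntegrable_iff_integrableOn_Ioc_of_le (by norm_num)] at this
    exact this.mono_set Ioo_subset_Ioc_self
  · filter_upwards with τ
    positivity

theorem hardy_pt {p : ℝ} (hp : 2 < p) {g : ℂ → ℂ} (hg : Measurable g) {z : ℂ} (hz : ‖z‖ < 1) :
    ENNReal.ofReal ((1 - ‖z‖) ^ (p - 1)) * Hd g z ^ p ≤
      ∫⁻ τ in Ioo (1 / 2 : ℝ) 1, ‖g (τ * z)‖ₑ ^ p * ENNReal.ofReal (1 - τ * ‖z‖) ^ (p - 2) := by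
  have hp0 : 0 < p := by linarith
  have hp1 : 0 < p - 1 := by linarith
  set x := ‖z‖ with hx
  have hx0 : 0 ≤ x := norm_nonneg z
  have hpos : ∀ τ ∈ Ioo (1 / 2 : ℝ) 1, 0 < 1 - τ * x := by
    intro τ hτ
    nlinarith [hτ.1, hτ.2]
  have hconj : p.HolderConjugate (p / (p - 1)) := Real.HolderConjugate.conjExponent (by linarith)
  set A : ℝ → ℝ≥0∞ := fun τ => ‖g (τ * z)‖ₑ * ENNReal.ofReal (1 - τ * x) ^ ((p - 2) / p) with hA
  set B : ℝ → ℝ≥0∞ := fun τ => ((ENNReal.ofReal (1 - τ * x))⁻¹) ^ ((2 * p - 2) / p) with hB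
  have hmA : Measurable A := by
    apply Measurable.mul
    · exact (hg.comp (by fun_prop)).enorm
    · fun_prop
  have hmB : Measurable B := by fun_prop
  have hH : Hd g z = ∫⁻ τ in Ioo (1 / 2 : ℝ) 1, (A * B) τ := by
    unfold Hd
    apply setLIntegral_congr_fun measurableSet_Ioo
    intro τ hτ
    have h5 := hpos τ hτ
    simp only [hA, hB, Pi.mul_apply]
    rw [mul_assoc]
    congr 1
    set w := ENNReal.ofReal (1 - τ * x) with hw
    have hw0 : w ≠ 0 := by rw [hw]; simpa using h5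
    have hwt : w ≠ ∞ := ENNReal.ofReal_ne_top
    rw [ENNReal.inv_rpow, ← ENNReal.rpow_neg, ← ENNReal.rpow_add _ _ hw0 hwt,
      ← ENNReal.rpow_neg_one]
    congr 1
    field_simp
    ring
  have hhol := ENNReal.lintegral_mul_le_Lp_mul_Lq (volume.restrict (Ioo (1 / 2 : ℝ) 1)) hconj
    hmA.aemeasurable hmB.aemeasurable
  rw [← hH] at hhol
  have hA' : ∫⁻ τ in Ioo (1 / 2 : ℝ) 1, A τ ^ p =
      ∫⁻ τ in Ioo (1 / 2 : ℝ) 1, ‖g (τ * z)‖ₑ ^ p * ENNReal.ofReal (1 - τ * x) ^ (p - 2) := by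
    apply lintegral_congr
    intro τ
    simp only [hA]
    rw [ENNReal.mul_rpow_of_nonneg _ _ hp0.le, ← ENNReal.rpow_mul]
    congr 2
    field_simp
  have hB' : ∫⁻ τ in Ioo (1 / 2 : ℝ) 1, B τ ^ (p / (p - 1)) ≤ ENNReal.ofReal (1 - x)⁻¹ := by
    refine le_trans (le_of_eq ?_) (int_inv_sq hx0 hz)
    apply lintegral_congr
    intro τ
    simp only [hB]
    rw [← ENNReal.rpow_mul]
    congr 1
    field_simp
  have h1x : 0 < 1 - x := by linarith
  calc ENNReal.ofReal ((1 - x) ^ (p - 1)) * Hd g z ^ p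
      ≤ ENNReal.ofReal ((1 - x) ^ (p - 1)) *
        ((∫⁻ τ in Ioo (1 / 2 : ℝ) 1, A τ ^ p) ^ (1 / p) *
        (∫⁻ τ in Ioo (1 / 2 : ℝ) 1, B τ ^ (p / (p - 1))) ^ (1 / (p / (p - 1)))) ^ p := by
        gcongr
    _ = ENNReal.ofReal ((1 - x) ^ (p - 1)) *
        ((∫⁻ τ in Ioo (1 / 2 : ℝ) 1, A τ ^ p) *
        (∫⁻ τ in Ioo (1 / 2 : ℝ) 1, B τ ^ (p / (p - 1))) ^ (p - 1)) := by
        rw [ENNReal.mul_rpow_of_nonneg _ _ hp0.le, ← ENNReal.rpow_mul, ← ENNReal.rpow_mul]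
        congr 2
        · rw [one_div_mul_cancel hp0.ne', ENNReal.rpow_one]
        · congr 1
          field_simp
    _ ≤ ENNReal.ofReal ((1 - x) ^ (p - 1)) *
        ((∫⁻ τ in Ioo (1 / 2 : ℝ) 1, A τ ^ p) * (ENNReal.ofReal (1 - x)⁻¹) ^ (p - 1)) := by
        gcongr
    _ = ∫⁻ τ in Ioo (1 / 2 : ℝ) 1, A τ ^ p := by
        have h2 : ENNReal.ofReal ((1 - x) ^ (p - 1)) * (ENNReal.ofReal (1 - x)⁻¹) ^ (p - 1)
            = 1 := by
          rw [ENNReal.ofReal_rpow_of_pos (by positivity),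
            ← ENNReal.ofReal_mul (by positivity), Real.inv_rpow h1x.le,
            mul_inv_cancel₀ (by positivity), ENNReal.ofReal_one]
        calc _ = (ENNReal.ofReal ((1 - x) ^ (p - 1)) * (ENNReal.ofReal (1 - x)⁻¹) ^ (p - 1)) *
              ∫⁻ τ in Ioo (1 / 2 : ℝ) 1, A τ ^ p := by ring
          _ = _ := by rw [h2, one_mul]
    _ = _ := hA'

/-- Hardy's inequality along the radii. -/
theorem hardy {p : ℝ} (hp : 2 < p) {g : ℂ → ℂ} (hg : Measurable g) :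
    ∫⁻ z, Hd g z ^ p ∂(nu p) ≤ 4 * ∫⁻ z, ‖g z‖ₑ ^ p ∂(nu p) := by
  have hp0 : 0 < p := by linarith
  rw [lint_nu, lint_nu]
  have h1 : ∫⁻ z in ball (0 : ℂ) 1, ENNReal.ofReal ((1 - ‖z‖) ^ (p - 1)) * Hd g z ^ p ≤
      ∫⁻ z in ball (0 : ℂ) 1, ∫⁻ τ in Ioo (1 / 2 : ℝ) 1,
        ‖g (τ * z)‖ₑ ^ p * ENNReal.ofReal (1 - τ * ‖z‖) ^ (p - 2) := by
    apply setLIntegral_mono' measurableSet_ball
    intro z hz
    exact hardy_pt hp hg (by simpa using hz)
  refine h1.trans ?_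
  rw [lintegral_lintegral_swap]
  swap
  · apply Measurable.aemeasurable
    apply Measurable.mul
    · exact ((hg.comp (by fun_prop)).enorm).pow_const _
    · fun_prop
  set Φ : ℂ → ℝ≥0∞ := fun w => ‖g w‖ₑ ^ p * ENNReal.ofReal (1 - ‖w‖) ^ (p - 2) with hΦ
  have hmΦ : Measurable Φ := by
    apply Measurable.mul
    · exact hg.enorm.pow_const _
    · fun_prop
  have h2 : ∀ τ ∈ Ioo (1 / 2 : ℝ) 1, ∫⁻ z in ball (0 : ℂ) 1,
        ‖g (τ * z)‖ₑ ^ p * ENNReal.ofReal (1 - τ * ‖z‖) ^ (p - 2) ≤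
        4 * ∫⁻ w in ball (0 : ℂ) 1, (Ioo (1 / 2 : ℝ) 1).indicator (fun _ => 1) τ *
          ((if ‖w‖ < τ then 1 else 0) * Φ w) := by
    intro τ hτ
    have hτ0 : 0 < τ := by linarith [hτ.1]
    have h3 : ∫⁻ z in ball (0 : ℂ) 1,
        ‖g (τ * z)‖ₑ ^ p * ENNReal.ofReal (1 - τ * ‖z‖) ^ (p - 2)
        = ∫⁻ z in ball (0 : ℂ) 1, Φ ((τ : ℂ) * z) := by
      apply lintegral_congr
      intro z
      simp only [hΦ]
      rw [norm_mul, Complex.norm_real, Real.norm_eq_abs, abs_of_pos hτ0]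
    rw [h3, scale hτ0 hmΦ]
    have h4 : ENNReal.ofReal (τ ^ 2)⁻¹ ≤ 4 := by
      have : (τ ^ 2)⁻¹ ≤ 4 := by
        rw [inv_le_comm₀ (by positivity) (by norm_num)]
        nlinarith [hτ.1]
      calc ENNReal.ofReal (τ ^ 2)⁻¹ ≤ ENNReal.ofReal 4 := ENNReal.ofReal_le_ofReal this
        _ = 4 := by norm_num
    refine mul_le_mul' h4 ?_
    rw [indicator_of_mem hτ]
    simp only [one_mul]
    rw [← lintegral_indicator measurableSet_ball, ← lintegral_indicator measurableSet_ball]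
    apply lintegral_mono
    intro w
    by_cases hw : w ∈ ball (0 : ℂ) τ
    · have hw1 : w ∈ ball (0 : ℂ) 1 := ball_subset_ball hτ.2.le hw
      rw [indicator_of_mem hw, indicator_of_mem hw1, if_pos (by simpa using hw), one_mul]
    · rw [indicator_of_notMem hw]
      exact zero_le
  refine (setLIntegral_mono' measurableSet_Ioo h2).trans ?_
  rw [lintegral_const_mul' _ _ (by norm_num)]
  gcongr
  rw [lintegral_lintegral_swap]
  swap
  · apply Measurable.aemeasurable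
    apply Measurable.mul
    · exact (measurable_const.indicator measurableSet_Ioo).comp measurable_fst
    · apply Measurable.mul
      · apply Measurable.ite
        · exact measurableSet_lt (by fun_prop) (by fun_prop)
        · exact measurable_const
        · exact measurable_const
      · exact hmΦ.comp measurable_snd
  apply setLIntegral_mono' measurableSet_ball
  intro w hw
  have hw1 : ‖w‖ < 1 := by simpa using hw
  have h5 : ∫⁻ τ in Ioo (1 / 2 : ℝ) 1, (Ioo (1 / 2 : ℝ) 1).indicator (fun _ => 1) τ *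
          ((if ‖w‖ < τ then 1 else 0) * Φ w) ≤ ENNReal.ofReal (1 - ‖w‖) * Φ w := by
    calc _ ≤ ∫⁻ τ in Ioo (1 / 2 : ℝ) 1, (Ioo ‖w‖ 1).indicator (fun _ => 1) τ * Φ w := by
          apply setLIntegral_mono' measurableSet_Ioo
          intro τ hτ
          rw [indicator_of_mem hτ, one_mul]
          by_cases h : ‖w‖ < τ
          · rw [if_pos h, indicator_of_mem (show τ ∈ Ioo ‖w‖ 1 from ⟨h, hτ.2⟩)]
          · rw [if_neg h, zero_mul]; exact zero_le
      _ ≤ ∫⁻ τ, (Ioo ‖w‖ 1).indicator (fun _ => 1) τ * Φ w := setLIntegral_le_lintegral _ _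
      _ = _ := by
          rw [lintegral_mul_const _ (measurable_const.indicator measurableSet_Ioo),
            lintegral_indicator measurableSet_Ioo, setLIntegral_const, one_mul, Real.volume_Ioo]
  refine h5.trans (le_of_eq ?_)
  simp only [hΦ]
  set v := ENNReal.ofReal (1 - ‖w‖) with hv
  have hv0 : v ≠ 0 := by rw [hv]; simpa using hw1
  have hvt : v ≠ ∞ := ENNReal.ofReal_ne_top
  have h6 : v * v ^ (p - 2) = ENNReal.ofReal ((1 - ‖w‖) ^ (p - 1)) := by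
    rw [← ENNReal.ofReal_rpow_of_pos (by linarith), ← hv]
    nth_rewrite 1 [← ENNReal.rpow_one v]
    rw [← ENNReal.rpow_add _ _ hv0 hvt]
    congr 1
    ring
  calc v * (‖g w‖ₑ ^ p * v ^ (p - 2)) = (v * v ^ (p - 2)) * ‖g w‖ₑ ^ p := by ring
    _ = _ := by rw [h6]

end Pool.Agent.V1179.DCyc
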