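import Mathlib
import Pool.Agent.V1179.DCyc.Hardy

set_option autoImplicit false

namespace Pool.Agent.V1179.DCyc

open MeasureTheory Set Metric Filter Topology
open scoped ENNReal

/-- The difference of a function and its dilation. -/
theorem diff_le {f : ℂ → ℂ} (hf : DifferentiableOn ℂ f (ball 0 1)) {z : ℂ} (hz : ‖z‖ < 1) {r : ℝ}
    (hr : 1 / 2 ≤ r) (hr1 : r < 1) :
    ‖f z - f (r * z)‖ₑ ≤ ENNReal.ofReal (1 - r * ‖z‖) * Hd (deriv f) z := by
  have hx0 : 0 ≤ ‖z‖ := norm_nonneg z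
  have hmem : ∀ τ ∈ Icc r 1, ((τ : ℂ) * z) ∈ ball (0 : ℂ) 1 := by
    intro τ hτ
    rw [mem_ball_zero_iff, norm_mul, Complex.norm_real, Real.norm_eq_abs,
      abs_of_nonneg (by linarith [hτ.1])]
    nlinarith [hτ.1, hτ.2]
  have hdf : DifferentiableOn ℂ (deriv f) (ball 0 1) := hf.deriv isOpen_ball
  have hder : ∀ τ ∈ uIcc r 1, HasDerivAt (fun τ : ℝ => f (τ * z)) (z * deriv f (τ * z)) τ := by
    intro τ hτ
    rw [uIcc_of_le hr1.le] at hτ
    have h1 : HasDerivAt f (deriv f (τ * z)) (τ * z) :=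
      ((hf _ (hmem τ hτ)).differentiableAt (isOpen_ball.mem_nhds (hmem τ hτ))).hasDerivAt
    have h2 : HasDerivAt (fun τ : ℝ => (τ : ℂ) * z) (1 * z) τ :=
      (Complex.ofRealCLM.hasDerivAt (x := τ)).mul_const z
    have h3 := h1.comp τ h2
    refine h3.congr_deriv ?_
    ring
  have hcont : ContinuousOn (fun τ : ℝ => z * deriv f (τ * z)) (uIcc r 1) := by
    rw [uIcc_of_le hr1.le]
    apply ContinuousOn.mul continuousOn_const
    exact hdf.continuousOn.comp (by fun_prop) (fun τ hτ => hmem τ hτ)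
  have hint := intervalIntegral.integral_eq_sub_of_hasDerivAt hder hcont.intervalIntegrable
  simp only [Complex.ofReal_one, one_mul] at hint
  rw [← hint]
  rw [intervalIntegral.integral_of_le hr1.le]
  refine (enorm_integral_le_lintegral_enorm _).trans ?_
  rw [← Measure.restrict_congr_set (Ioo_ae_eq_Ioc (a := r) (b := 1) (μ := volume))]
  have h1 : ∫⁻ τ in Ioo r 1, ‖z * deriv f (τ * z)‖ₑ ≤
      ∫⁻ τ in Ioo r 1, ENNReal.ofReal (1 - r * ‖z‖) *
        (‖deriv f (τ * z)‖ₑ * (ENNReal.ofReal (1 - τ * ‖z‖))⁻¹) := by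
    apply setLIntegral_mono' measurableSet_Ioo
    intro τ hτ
    have hw : 0 < 1 - τ * ‖z‖ := by nlinarith [hτ.1, hτ.2]
    rw [enorm_mul]
    have hz1 : ‖z‖ₑ ≤ 1 := by
      rw [← ofReal_norm]
      exact ENNReal.ofReal_le_one.2 hz.le
    have h2 : 1 ≤ ENNReal.ofReal (1 - r * ‖z‖) * (ENNReal.ofReal (1 - τ * ‖z‖))⁻¹ := by
      rw [← div_eq_mul_inv, ENNReal.le_div_iff_mul_le (Or.inl (by simpa using hw))
        (Or.inl ENNReal.ofReal_ne_top), one_mul]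
      apply ENNReal.ofReal_le_ofReal
      nlinarith [hτ.1]
    calc ‖z‖ₑ * ‖deriv f (τ * z)‖ₑ ≤ 1 * ‖deriv f (τ * z)‖ₑ := by gcongr
      _ ≤ (ENNReal.ofReal (1 - r * ‖z‖) * (ENNReal.ofReal (1 - τ * ‖z‖))⁻¹) *
          ‖deriv f (τ * z)‖ₑ := by gcongr
      _ = _ := by ring
  refine h1.trans ?_
  rw [lintegral_const_mul' _ _ ENNReal.ofReal_ne_top]
  gcongr
  unfold Hd
  exact lintegral_mono_set (Ioo_subset_Ioo_left hr)

theorem nu_univ {p : ℝ} (hp : 1 ≤ p) : nu p univ < ∞ := by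
  rw [← lintegral_one, lint_nu]
  calc ∫⁻ z in ball (0 : ℂ) 1, ENNReal.ofReal ((1 - ‖z‖) ^ (p - 1)) * 1
      ≤ ∫⁻ z in ball (0 : ℂ) 1, 1 := by
        apply setLIntegral_mono' measurableSet_ball
        intro z hz
        have hz1 : ‖z‖ < 1 := by simpa using hz
        rw [mul_one]
        apply ENNReal.ofReal_le_one.2
        exact Real.rpow_le_one (by linarith) (by linarith [norm_nonneg z]) (by linarith)
    _ = volume (ball (0 : ℂ) 1) := by simp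
    _ < ∞ := measure_ball_lt_top

theorem ae_nu_of_ball {p : ℝ} {P : ℂ → Prop} (h : ∀ z : ℂ, ‖z‖ < 1 → P z) : ∀ᵐ z ∂(nu p), P z := by
  have h1 : nu p ≪ volume.restrict (ball (0 : ℂ) 1) := withDensity_absolutelyContinuous _ _
  exact h1.ae_le ((ae_restrict_iff' measurableSet_ball).2
    (Eventually.of_forall fun z hz => h z (by simpa using hz)))

/-- `f` is in `L^p` of the weight. -/
theorem lp_self {p : ℝ} (hp : 2 < p) {f : ℂ → ℂ} (hf : DifferentiableOn ℂ f (ball 0 1))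
    (hfin : ∫⁻ z, ‖deriv f z‖ₑ ^ p ∂(nu p) < ∞) : ∫⁻ z, ‖f z‖ₑ ^ p ∂(nu p) < ∞ := by
  obtain ⟨M, hM⟩ : ∃ M : ℝ, ∀ z : ℂ, ‖z‖ < 1 → ‖f ((1 / 2 : ℝ) * z)‖ ≤ M := by
    obtain ⟨M, hM⟩ := (isCompact_closedBall (0 : ℂ) (1 / 2)).exists_bound_of_continuousOn
      (hf.continuousOn.mono (closedBall_subset_ball (by norm_num)))
    refine ⟨M, fun z hz => hM _ ?_⟩
    rw [mem_closedBall_zero_iff, norm_mul, Complex.norm_real, Real.norm_eq_abs,
      abs_of_pos (by norm_num)]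
    linarith
  have hM0 : 0 ≤ M := (norm_nonneg _).trans (hM 0 (by simp))
  have h1 : ∀ᵐ z ∂(nu p), ‖f z‖ₑ ^ p ≤
      2 ^ (p - 1) * (ENNReal.ofReal M ^ p + Hd (deriv f) z ^ p) := by
    apply ae_nu_of_ball
    intro z hz
    have h2 : ‖f z‖ₑ ≤ ENNReal.ofReal M + Hd (deriv f) z := by
      calc ‖f z‖ₑ = ‖f ((1 / 2 : ℝ) * z) + (f z - f ((1 / 2 : ℝ) * z))‖ₑ := by congr 1; ring
        _ ≤ ‖f ((1 / 2 : ℝ) * z)‖ₑ + ‖f z - f ((1 / 2 : ℝ) * z)‖ₑ := enorm_add_le _ _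
        _ ≤ ENNReal.ofReal M + ENNReal.ofReal (1 - (1 / 2 : ℝ) * ‖z‖) * Hd (deriv f) z := by
            gcongr
            · rw [← ofReal_norm]; exact ENNReal.ofReal_le_ofReal (hM z hz)
            · exact diff_le hf hz le_rfl (by norm_num)
        _ ≤ ENNReal.ofReal M + 1 * Hd (deriv f) z := by
            gcongr
            apply ENNReal.ofReal_le_one.2
            have := norm_nonneg z
            linarith
        _ = _ := by rw [one_mul]
    calc ‖f z‖ₑ ^ p ≤ (ENNReal.ofReal M + Hd (deriv f) z) ^ p := by gcongr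
      _ ≤ _ := ENNReal.rpow_add_le_mul_rpow_add_rpow _ _ (by linarith)
  calc ∫⁻ z, ‖f z‖ₑ ^ p ∂(nu p)
      ≤ ∫⁻ z, 2 ^ (p - 1) * (ENNReal.ofReal M ^ p + Hd (deriv f) z ^ p) ∂(nu p) :=
        lintegral_mono_ae h1
    _ = 2 ^ (p - 1) * (ENNReal.ofReal M ^ p * nu p univ + ∫⁻ z, Hd (deriv f) z ^ p ∂(nu p)) := by
        rw [lintegral_const_mul' _ _ (by
          apply ENNReal.rpow_ne_top_of_nonneg (by linarith) (by norm_num)),
          lintegral_add_left measurable_const, lintegral_const]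
    _ ≤ 2 ^ (p - 1) * (ENNReal.ofReal M ^ p * nu p univ +
          4 * ∫⁻ z, ‖deriv f z‖ₑ ^ p ∂(nu p)) := by
        gcongr
        exact hardy hp (measurable_deriv f)
    _ < ∞ := by
        apply ENNReal.mul_lt_top
        · exact ENNReal.rpow_lt_top_of_nonneg (by linarith) (by norm_num)
        · apply ENNReal.add_lt_top.2
          refine ⟨ENNReal.mul_lt_top (ENNReal.rpow_lt_top_of_nonneg (by linarith)
            ENNReal.ofReal_ne_top) (nu_univ (by linarith)), ENNReal.mul_lt_top (by norm_num) hfin⟩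

/-- A Scheffé lemma. -/
theorem scheffe {α : Type*} [MeasurableSpace α] {μ : Measure α} {p : ℝ} (hp : 1 ≤ p)
    {g : ℕ → α → ℂ} {g0 : α → ℂ} (hm : ∀ n, AEMeasurable (g n) μ) (h0 : AEMeasurable g0 μ)
    (hlim : ∀ᵐ x ∂μ, Tendsto (fun n => g n x) atTop (𝓝 (g0 x))) {c : ℕ → ℝ≥0∞}
    (hc : Tendsto c atTop (𝓝 1))
    (hle : ∀ n, ∫⁻ x, ‖g n x‖ₑ ^ p ∂μ ≤ c n * ∫⁻ x, ‖g0 x‖ₑ ^ p ∂μ)
    (hfin : ∫⁻ x, ‖g0 x‖ₑ ^ p ∂μ < ∞) :
    Tendsto (fun n => ∫⁻ x, ‖g n x - g0 x‖ₑ ^ p ∂μ) atTop (𝓝 0) := by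
  have hp0 : 0 < p := by linarith
  set I := ∫⁻ x, ‖g0 x‖ₑ ^ p ∂μ with hI
  set K : ℝ≥0∞ := 2 ^ (p - 1) with hK
  have hKt : K ≠ ∞ := ENNReal.rpow_ne_top_of_nonneg (by linarith) (by norm_num)
  set h : ℕ → α → ℝ≥0∞ := fun n x => K * (‖g n x‖ₑ ^ p + ‖g0 x‖ₑ ^ p) - ‖g n x - g0 x‖ₑ ^ p with hh
  have hmd : ∀ n, AEMeasurable (fun x => ‖g n x - g0 x‖ₑ ^ p) μ := fun n =>
    (((hm n).sub h0).enorm).pow_const _
  have hmh : ∀ n, AEMeasurable (h n) μ := by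
    intro n
    apply AEMeasurable.sub _ (hmd n)
    exact ((((hm n).enorm).pow_const _).add ((h0.enorm).pow_const _)).const_mul _
  have hsum : ∀ n x, h n x + ‖g n x - g0 x‖ₑ ^ p = K * (‖g n x‖ₑ ^ p + ‖g0 x‖ₑ ^ p) := by
    intro n x
    apply tsub_add_cancel_of_le
    calc ‖g n x - g0 x‖ₑ ^ p ≤ (‖g n x‖ₑ + ‖g0 x‖ₑ) ^ p := by
          gcongr
          exact enorm_sub_le
      _ ≤ _ := ENNReal.rpow_add_le_mul_rpow_add_rpow _ _ hp
  have hint : ∀ n, ∫⁻ x, h n x ∂μ + ∫⁻ x, ‖g n x - g0 x‖ₑ ^ p ∂μ ≤ K * ((c n + 1) * I) := by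
    intro n
    rw [← lintegral_add_right' _ (hmd n)]
    simp_rw [hsum]
    rw [lintegral_const_mul' _ _ hKt, lintegral_add_right' _ ((h0.enorm).pow_const _)]
    gcongr
    rw [add_mul, one_mul]
    gcongr
    exact hle n
  have hfat : K * (2 * I) ≤ liminf (fun n => ∫⁻ x, h n x ∂μ) atTop := by
    refine le_trans (le_of_eq ?_) (lintegral_liminf_le' hmh)
    have h1 : ∀ᵐ x ∂μ, liminf (fun n => h n x) atTop = K * (2 * ‖g0 x‖ₑ ^ p) := by
      filter_upwards [hlim] with x hx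
      apply Tendsto.liminf_eq
      have t1 : Tendsto (fun n => ‖g n x‖ₑ ^ p) atTop (𝓝 (‖g0 x‖ₑ ^ p)) :=
        (ENNReal.continuous_rpow_const.tendsto _).comp (hx.enorm)
      have t2 : Tendsto (fun n => ‖g n x - g0 x‖ₑ ^ p) atTop (𝓝 0) := by
        have t3 : Tendsto (fun n => g n x - g0 x) atTop (𝓝 0) := by
          have := hx.sub_const (g0 x)
          simpa using this
        have t4 := (ENNReal.continuous_rpow_const (y := p)).tendsto _ |>.comp t3.enorm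
        rw [enorm_zero, ENNReal.zero_rpow_of_pos hp0] at t4
        exact t4
      have t5 : Tendsto (fun n => K * (‖g n x‖ₑ ^ p + ‖g0 x‖ₑ ^ p)) atTop
          (𝓝 (K * (‖g0 x‖ₑ ^ p + ‖g0 x‖ₑ ^ p))) := by
        apply ENNReal.Tendsto.const_mul
        · exact t1.add_const _
        · exact Or.inr hKt
      have t6 := ENNReal.Tendsto.sub t5 t2 (Or.inr (by simp))
      rw [tsub_zero] at t6
      rw [two_mul]
      exact t6
    rw [lintegral_congr_ae h1, lintegral_const_mul' _ _ hKt, lintegral_const_mul' _ _ (by norm_num)]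
  have hKI : K * (2 * I) ≠ ∞ := ENNReal.mul_ne_top hKt (ENNReal.mul_ne_top (by norm_num) hfin.ne)
  rw [ENNReal.tendsto_nhds_zero]
  intro ε hε
  rcases eq_or_ne ε ∞ with rfl | hεt
  · exact Eventually.of_forall fun _ => le_top
  have t7 : Tendsto (fun n => K * ((c n + 1) * I)) atTop (𝓝 (K * (2 * I))) := by
    apply ENNReal.Tendsto.const_mul _ (Or.inr hKt)
    apply ENNReal.Tendsto.mul_const _ (Or.inr hfin.ne)
    have := hc.add_const (1 : ℝ≥0∞)
    rwa [one_add_one_eq_two] at this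
  have hε2 : 0 < ε / 2 := ENNReal.half_pos hε.ne'
  have e1 : ∀ᶠ n in atTop, K * ((c n + 1) * I) ≤ K * (2 * I) + ε / 2 := by
    have h8 : K * (2 * I) < K * (2 * I) + ε / 2 := ENNReal.lt_add_right hKI hε2.ne'
    filter_upwards [t7.eventually (gt_mem_nhds h8)] with n hn using hn.le
  have e2 : ∀ᶠ n in atTop, K * (2 * I) ≤ ∫⁻ x, h n x ∂μ + ε / 2 := by
    rcases eq_or_ne (K * (2 * I)) 0 with h9 | h9
    · rw [h9]; exact Eventually.of_forall fun _ => zero_le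
    · have h10 : K * (2 * I) - ε / 2 < liminf (fun n => ∫⁻ x, h n x ∂μ) atTop :=
        (ENNReal.sub_lt_self hKI h9 hε2.ne').trans_le hfat
      filter_upwards [eventually_lt_of_lt_liminf h10] with n hn
      exact tsub_le_iff_right.1 hn.le
  filter_upwards [e1, e2] with n h11 h12
  have h13 := (hint n).trans h11
  have h14 : ∫⁻ x, h n x ∂μ ≠ ∞ := by
    refine ne_top_of_le_ne_top ?_ (le_self_add.trans h13)
    exact ENNReal.add_ne_top.2 ⟨hKI, (ENNReal.div_lt_top hεt (by norm_num)).ne⟩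
  have h15 : ∫⁻ x, h n x ∂μ + ∫⁻ x, ‖g n x - g0 x‖ₑ ^ p ∂μ ≤ ∫⁻ x, h n x ∂μ + ε := by
    refine h13.trans ?_
    calc K * (2 * I) + ε / 2 ≤ (∫⁻ x, h n x ∂μ + ε / 2) + ε / 2 := by gcongr
      _ = ∫⁻ x, h n x ∂μ + ε := by rw [add_assoc, ENNReal.add_halves]
  exact (ENNReal.add_le_add_iff_left h14).1 h15

end Pool.Agent.V1179.DCyc
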