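import Mathlib
import Pool.Agent.V1179.DCyc.Conv
import Pool.Agent.Helper610.Bohr.Basic

set_option autoImplicit false

namespace Pool.Agent.V1179.DCyc

open MeasureTheory Set Metric Filter Topology
open scoped ENNReal
open Pool.Agent.Helper610.Bohr (PS coeff pt norm_pt continuous_pt)

theorem coeff_deriv (F : ℂ → ℂ) (n : ℕ) : coeff (deriv F) n = (n + 1) * coeff F (n + 1) := by
  unfold coeff
  rw [← iteratedDeriv_succ', Nat.factorial_succ]
  have h1 : ((n : ℂ) + 1) ≠ 0 := Nat.cast_add_one_ne_zero n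
  have h2 : (n.factorial : ℂ) ≠ 0 := by exact_mod_cast n.factorial_ne_zero
  push_cast
  field_simp

/-- Polar coordinates for integrals over the disc. -/
theorem polar_ball {h : ℂ → ℝ≥0∞} (hh : Measurable h) :
    ∫⁻ z in ball (0 : ℂ) 1, h z =
      ∫⁻ r in Ioo (0 : ℝ) 1, ENNReal.ofReal r * ∫⁻ θ in Ioo (-Real.pi) Real.pi, h (pt r θ) := by
  rw [← lintegral_indicator measurableSet_ball, ← Complex.lintegral_comp_polarCoord_symm]
  have h1 : polarCoord.target = Ioi (0 : ℝ) ×ˢ Ioo (-Real.pi) Real.pi := polarCoord_target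
  have hm : Measurable fun q : ℝ × ℝ => pt q.1 q.2 := by
    unfold pt
    fun_prop
  have h2 : ∀ q : ℝ × ℝ, Complex.polarCoord.symm q = pt q.1 q.2 := by
    intro q
    rw [Complex.polarCoord_symm_apply]
    unfold pt
    congr 1
    rw [Complex.exp_mul_I, Complex.ofReal_cos, Complex.ofReal_sin]
  rw [h1]
  simp_rw [h2, smul_eq_mul]
  rw [Measure.volume_eq_prod, setLIntegral_prod _ (by
    apply Measurable.aemeasurable
    apply Measurable.mul (by fun_prop)
    exact (hh.indicator measurableSet_ball).comp hm)]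
  rw [← Ioo_union_Ici_eq_Ioi (show (0 : ℝ) < 1 by norm_num), lintegral_union measurableSet_Ici]
  · have h3 : ∫⁻ x in Ici (1 : ℝ), ∫⁻ y in Ioo (-Real.pi) Real.pi,
        ENNReal.ofReal x * (ball (0 : ℂ) 1).indicator h (pt x y) = 0 := by
      rw [← lintegral_zero (μ := volume.restrict (Ici (1 : ℝ)))]
      apply setLIntegral_congr_fun measurableSet_Ici
      intro x hx
      have hx1 : (1 : ℝ) ≤ x := hx
      simp only
      rw [← lintegral_zero (μ := volume.restrict (Ioo (-Real.pi) Real.pi))]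
      apply lintegral_congr
      intro y
      rw [indicator_of_notMem, mul_zero]
      rw [mem_ball_zero_iff, norm_pt (by linarith)]
      linarith
    rw [h3, add_zero]
    apply setLIntegral_congr_fun measurableSet_Ioo
    intro x hx
    simp only
    rw [lintegral_const_mul' _ _ ENNReal.ofReal_ne_top]
    congr 1
    apply lintegral_congr
    intro y
    rw [indicator_of_mem]
    rw [mem_ball_zero_iff, norm_pt hx.1.le]
    exact hx.2
  · exact Set.disjoint_left.2 fun x hx hx2 => absurd hx.2 (not_lt.2 hx2)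

theorem circle_int {G : ℂ → ℂ} (hG : DifferentiableOn ℂ G (ball 0 1)) {r : ℝ} (h0 : 0 ≤ r)
    (h1 : r < 1) :
    ∫⁻ θ in Ioo (-Real.pi) Real.pi, ‖G (pt r θ)‖ₑ ^ (2 : ℝ) =
      ∑' n : ℕ, ENNReal.ofReal (2 * Real.pi * (‖coeff G n‖ ^ 2 * r ^ (2 * n))) := by
  have hpi := Real.pi_pos
  have hps := PS.of_diff hG
  have hpar := hps.parseval hG h0 h1
  have hcf : Continuous (fun θ : ℝ => G (pt r θ)) := by
    refine hG.continuousOn.comp_continuous (continuous_pt r) (fun θ => ?_)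
    rw [mem_ball_zero_iff, norm_pt h0]
    exact h1
  have e1 : ∫⁻ θ in Ioo (-Real.pi) Real.pi, ‖G (pt r θ)‖ₑ ^ (2 : ℝ) =
      ENNReal.ofReal (∫ θ in (0 : ℝ)..(2 * Real.pi), ‖G (pt r θ)‖ ^ 2) := by
    have hper : Function.Periodic (fun θ : ℝ => ‖G (pt r θ)‖ ^ 2) (2 * Real.pi) := by
      intro θ
      simp only
      congr 3
      unfold pt
      push_cast
      rw [add_mul, Complex.exp_add, Complex.exp_two_pi_mul_I, mul_one]
    have h2 := hper.intervalIntegral_add_eq (-Real.pi) 0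
    rw [zero_add] at h2
    rw [← h2]
    have h3 : -Real.pi + 2 * Real.pi = Real.pi := by ring
    rw [h3, intervalIntegral.integral_of_le (by linarith), integral_Ioc_eq_integral_Ioo,
      ofReal_integral_eq_lintegral_ofReal]
    · apply lintegral_congr
      intro θ
      rw [← ofReal_norm, ENNReal.ofReal_rpow_of_nonneg (norm_nonneg _) (by norm_num),
        Real.rpow_two]
    · have : IntegrableOn (fun θ : ℝ => ‖G (pt r θ)‖ ^ 2) (Icc (-Real.pi) Real.pi) :=
        (hcf.norm.pow 2).continuousOn.integrableOn_Icc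
      exact this.mono_set Ioo_subset_Icc_self
    · exact Eventually.of_forall fun θ => by positivity
  rw [e1]
  have h4 := hpar.mul_left (2 * Real.pi)
  rw [← mul_assoc, mul_inv_cancel₀ (by positivity), one_mul] at h4
  rw [← h4.tsum_eq, ENNReal.ofReal_tsum_of_nonneg (fun n => by positivity) h4.summable]

theorem int_pow (n : ℕ) :
    ∫⁻ r in Ioo (0 : ℝ) 1, ENNReal.ofReal r * (ENNReal.ofReal (1 - r) * ENNReal.ofReal (r ^ (2 * n)))
      ≤ ENNReal.ofReal (1 / (4 * ((n : ℝ) + 1) ^ 2)) := by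
  have hn : (0 : ℝ) ≤ n := Nat.cast_nonneg n
  have e1 : ∫⁻ r in Ioo (0 : ℝ) 1,
      ENNReal.ofReal r * (ENNReal.ofReal (1 - r) * ENNReal.ofReal (r ^ (2 * n)))
      = ∫⁻ r in Ioo (0 : ℝ) 1, ENNReal.ofReal (r ^ (2 * n + 1) - r ^ (2 * n + 2)) := by
    apply setLIntegral_congr_fun measurableSet_Ioo
    intro r hr
    have h1 : 0 ≤ 1 - r := by linarith [hr.2]
    simp only
    rw [← ENNReal.ofReal_mul h1, ← ENNReal.ofReal_mul hr.1.le]
    congr 1
    ring
  rw [e1, ← ofReal_integral_eq_lintegral_ofReal]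
  · apply ENNReal.ofReal_le_ofReal
    rw [← integral_Ioc_eq_integral_Ioo, ← intervalIntegral.integral_of_le (by norm_num),
      intervalIntegral.integral_sub, integral_pow, integral_pow]
    · simp only [one_pow, ne_eq, Nat.add_eq_zero_iff, mul_eq_zero, OfNat.ofNat_ne_zero, false_or,
        one_ne_zero, and_false, not_false_eq_true, zero_pow, sub_zero]
      push_cast
      rw [div_sub_div _ _ (by positivity) (by positivity),
        div_le_div_iff₀ (by positivity) (by positivity)]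
      nlinarith [mul_nonneg hn hn, mul_nonneg (mul_nonneg hn hn) hn]
    · exact (continuous_pow _).intervalIntegrable _ _
    · exact (continuous_pow _).intervalIntegrable _ _
  · have : IntegrableOn (fun r : ℝ => r ^ (2 * n + 1) - r ^ (2 * n + 2)) (Icc 0 1) := by
      apply ContinuousOn.integrableOn_Icc
      fun_prop
    exact this.mono_set Ioo_subset_Icc_self
  · rw [EventuallyLE, ae_restrict_iff' measurableSet_Ioo]
    refine Eventually.of_forall fun r hr => ?_
    simp only [Pi.zero_apply]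
    have : r ^ (2 * n + 2) ≤ r ^ (2 * n + 1) :=
      pow_le_pow_of_le_one hr.1.le hr.2.le (by omega)
    linarith

/-- A Littlewood-Paley estimate. -/
theorem littlewood_paley {F : ℂ → ℂ} (hF : DifferentiableOn ℂ F (ball 0 1))
    (hb : ∀ z : ℂ, ‖z‖ < 1 → ‖F z‖ ≤ 1) :
    ∫⁻ z in ball (0 : ℂ) 1, ENNReal.ofReal (1 - ‖z‖) * ‖deriv F z‖ₑ ^ (2 : ℝ) ≤
      ENNReal.ofReal (Real.pi * (1 - ‖F 0‖ ^ 2)) := by
  have hpi := Real.pi_pos
  have hFd : DifferentiableOn ℂ (deriv F) (ball 0 1) := hF.deriv isOpen_ball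
  rw [polar_ball (by
    apply Measurable.mul (by fun_prop)
    exact (measurable_deriv F).enorm.pow_const _)]
  have e1 : ∀ r ∈ Ioo (0 : ℝ) 1, ENNReal.ofReal r * ∫⁻ θ in Ioo (-Real.pi) Real.pi,
      ENNReal.ofReal (1 - ‖pt r θ‖) * ‖deriv F (pt r θ)‖ₑ ^ (2 : ℝ) =
      ∑' n : ℕ, ENNReal.ofReal (2 * Real.pi * ‖coeff (deriv F) n‖ ^ 2) *
        (ENNReal.ofReal r * (ENNReal.ofReal (1 - r) * ENNReal.ofReal (r ^ (2 * n)))) := by
    intro r hr
    have h1 : ∫⁻ θ in Ioo (-Real.pi) Real.pi,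
        ENNReal.ofReal (1 - ‖pt r θ‖) * ‖deriv F (pt r θ)‖ₑ ^ (2 : ℝ) =
        ENNReal.ofReal (1 - r) * ∫⁻ θ in Ioo (-Real.pi) Real.pi,
          ‖deriv F (pt r θ)‖ₑ ^ (2 : ℝ) := by
      rw [← lintegral_const_mul' _ _ ENNReal.ofReal_ne_top]
      apply lintegral_congr
      intro θ
      rw [norm_pt hr.1.le]
    rw [h1, circle_int hFd hr.1.le hr.2, ← mul_assoc, ← ENNReal.tsum_mul_left]
    congr 1
    funext n
    rw [← mul_assoc (2 * Real.pi), ENNReal.ofReal_mul (by positivity)]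
    ring
  rw [setLIntegral_congr_fun measurableSet_Ioo e1, lintegral_tsum]
  swap
  · intro n
    apply Measurable.aemeasurable
    fun_prop
  have e2 : ∀ n : ℕ, ∫⁻ r in Ioo (0 : ℝ) 1, ENNReal.ofReal (2 * Real.pi * ‖coeff (deriv F) n‖ ^ 2) *
        (ENNReal.ofReal r * (ENNReal.ofReal (1 - r) * ENNReal.ofReal (r ^ (2 * n)))) ≤
      ENNReal.ofReal (Real.pi / 2 * ‖coeff F (n + 1)‖ ^ 2) := by
    intro n
    rw [lintegral_const_mul' _ _ ENNReal.ofReal_ne_top]
    refine (mul_le_mul_right (int_pow n) _).trans ?_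
    rw [← ENNReal.ofReal_mul (by positivity)]
    apply ENNReal.ofReal_le_ofReal
    rw [coeff_deriv, norm_mul]
    have h1 : ‖((n : ℂ) + 1)‖ = (n : ℝ) + 1 := by
      have : ((n : ℂ) + 1) = ((n + 1 : ℕ) : ℂ) := by push_cast; ring
      rw [this, Complex.norm_natCast]
      push_cast; ring
    rw [h1]
    have h2 : ((n : ℝ) + 1) ≠ 0 := by positivity
    apply le_of_eq
    field_simp
    ring
  refine (ENNReal.tsum_le_tsum e2).trans ?_
  refine ENNReal.tsum_le_of_sum_range_le fun N => ?_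
  rw [← ENNReal.ofReal_sum_of_nonneg (fun n _ => by positivity)]
  apply ENNReal.ofReal_le_ofReal
  have h1 := (PS.of_diff hF).sum_sq_le_one hF hb (N + 1)
  rw [Finset.sum_range_succ'] at h1
  have h2 : coeff F 0 = F 0 := by
    unfold coeff
    simp
  rw [h2] at h1
  rw [← Finset.mul_sum]
  have h3 : 0 ≤ ∑ n ∈ Finset.range N, ‖coeff F (n + 1)‖ ^ 2 :=
    Finset.sum_nonneg fun n _ => by positivity
  nlinarith

/-- The analogue for the weight with exponent `p`. -/
theorem deriv_le {p : ℝ} (hp : 2 < p) {F : ℂ → ℂ} (hF : DifferentiableOn ℂ F (ball 0 1))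
    (hb : ∀ z : ℂ, ‖z‖ < 1 → ‖F z‖ ≤ 1)
    (hc : ∀ z : ℂ, ‖z‖ < 1 → ‖deriv F z‖ * (1 - ‖z‖) ≤ 1) :
    ∫⁻ z, ‖deriv F z‖ₑ ^ p ∂(nu p) ≤ ENNReal.ofReal (Real.pi * (1 - ‖F 0‖ ^ 2)) := by
  refine le_trans ?_ (littlewood_paley hF hb)
  rw [lint_nu]
  apply setLIntegral_mono' measurableSet_ball
  intro z hz
  have hz1 : ‖z‖ < 1 := by simpa using hz
  have h1 := hc z hz1
  set t := ‖deriv F z‖ with ht
  have ht0 : 0 ≤ t := norm_nonneg _
  set v := 1 - ‖z‖ with hv
  have hv0 : 0 < v := by rw [hv]; linarith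
  rw [← ofReal_norm, ← ht, ENNReal.ofReal_rpow_of_nonneg ht0 (by linarith),
    ENNReal.ofReal_rpow_of_nonneg ht0 (by norm_num), ← ENNReal.ofReal_mul (by positivity),
    ← ENNReal.ofReal_mul (by positivity)]
  apply ENNReal.ofReal_le_ofReal
  rcases ht0.eq_or_lt with h0 | h0
  · rw [← h0, Real.zero_rpow (by linarith), Real.zero_rpow (by norm_num)]
    simp
  · have e1 : v ^ (p - 1) * t ^ p = (v * t ^ (2 : ℝ)) * (t * v) ^ (p - 2) := by
      rw [Real.mul_rpow ht0 hv0.le]
      have e2 : v ^ (p - 1) = v * v ^ (p - 2) := by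
        nth_rewrite 2 [← Real.rpow_one v]
        rw [← Real.rpow_add hv0]
        congr 1
        ring
      have e3 : t ^ p = t ^ (2 : ℝ) * t ^ (p - 2) := by
        rw [← Real.rpow_add h0]
        congr 1
        ring
      rw [e2, e3]
      ring
    rw [e1]
    have e4 : (t * v) ^ (p - 2) ≤ 1 := Real.rpow_le_one (by positivity) h1 (by linarith)
    have e5 : 0 ≤ v * t ^ (2 : ℝ) := by positivity
    calc (v * t ^ (2 : ℝ)) * (t * v) ^ (p - 2) ≤ (v * t ^ (2 : ℝ)) * 1 := by gcongr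
      _ = _ := by ring

end Pool.Agent.V1179.DCyc
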