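import Mathlib

set_option autoImplicit false

namespace Pool.Agent.V1179.DCyc

open MeasureTheory Set Metric Filter Topology Real
open scoped ENNReal

/-- The Herglotz integral of a real function on the unit circle. -/
noncomputable def Hz (φ : ℂ → ℝ) (z : ℂ) : ℂ :=
  circleAverage (fun ζ => herglotzRieszKernel 0 z ζ • ((φ ζ : ℝ) : ℂ)) 0 1

theorem ofReal_ci {φ : ℂ → ℝ} (h : CircleIntegrable φ 0 1) :
    CircleIntegrable (fun ζ => ((φ ζ : ℝ) : ℂ)) 0 1 := by
  simp only [CircleIntegrable, intervalIntegrable_iff] at h ⊢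
  exact Complex.ofRealCLM.integrable_comp h

theorem Hz_diff {φ : ℂ → ℝ} (h : CircleIntegrable φ 0 1) :
    DifferentiableOn ℂ (Hz φ) (ball 0 1) :=
  differentiableOn_circleAverage_herglotzRieszKernel_smul (ofReal_ci h)

theorem ker_cont {z : ℂ} (hz : ‖z‖ < 1) :
    ContinuousOn (herglotzRieszKernel 0 z) (sphere 0 |1|) :=
  continuousOn_herglotzRieszKernel_sphere (by simpa using hz)

theorem Hz_add {φ ψ : ℂ → ℝ} (h : CircleIntegrable φ 0 1) (h' : CircleIntegrable ψ 0 1) {z : ℂ}
    (hz : ‖z‖ < 1) : Hz (fun ζ => φ ζ + ψ ζ) z = Hz φ z + Hz ψ z := by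
  have h1 := circleAverage_add ((ofReal_ci h).continuousOn_smul (ker_cont hz))
    ((ofReal_ci h').continuousOn_smul (ker_cont hz))
  have h2 : Hz φ z + Hz ψ z = circleAverage (herglotzRieszKernel 0 z • fun ζ => ((φ ζ : ℝ) : ℂ)) 0 1 +
      circleAverage (herglotzRieszKernel 0 z • fun ζ => ((ψ ζ : ℝ) : ℂ)) 0 1 := rfl
  rw [h2, ← h1]
  unfold Hz
  congr 1
  funext ζ
  simp only [Pi.add_apply, smul_eq_mul, Pi.mul_apply]
  push_cast
  ring

theorem Hz_re_le {φ : ℂ → ℝ} (h : CircleIntegrable φ 0 1) {M : ℝ} (hM : ∀ ζ, φ ζ ≤ M) {z : ℂ}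
    (hz : ‖z‖ < 1) : (Hz φ z).re ≤ M := by
  have hz' : z ∈ ball (0 : ℂ) 1 := by simpa using hz
  unfold Hz
  rw [re_circleAverage_herglotzRieszKernel_smul h hz']
  have h1 : circleAverage ((Complex.re ∘ herglotzRieszKernel 0 z) • fun _ => M) 0 1 = M := by
    have h2 := (diffContOnCl_const (c := (M : ℂ)) (s := ball (0 : ℂ) 1)
      (𝕜 := ℂ)).circleAverage_re_herglotzRieszKernel_smul hz'
    have h3 : (circleAverage ((Complex.re ∘ herglotzRieszKernel 0 z) • fun _ => (M : ℂ)) 0 1)
        = ((circleAverage ((Complex.re ∘ herglotzRieszKernel 0 z) • fun _ => M) 0 1 : ℝ) : ℂ) := by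
      unfold circleAverage
      rw [Complex.real_smul, smul_eq_mul, Complex.ofReal_mul, ← intervalIntegral.integral_ofReal]
      congr 1
      apply intervalIntegral.integral_congr
      intro θ _
      simp
    rw [h3] at h2
    exact_mod_cast h2
  have hre : ContinuousOn (Complex.re ∘ herglotzRieszKernel 0 z) (sphere 0 |1|) :=
    Complex.continuous_re.comp_continuousOn (ker_cont hz)
  rw [← h1]
  apply circleAverage_mono
  · exact h.continuousOn_smul hre
  · exact (circleIntegrable_const M 0 1).continuousOn_smul hre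
  · intro ζ hζ
    simp only [Pi.smul_apply', smul_eq_mul, Function.comp_apply]
    apply mul_le_mul_of_nonneg_left (hM ζ)
    have hζ' : ζ ∈ sphere (0 : ℂ) 1 := by simpa using hζ
    have h4 := le_re_herglotzRieszKernel hζ' hz'
    have h5 : 0 ≤ (1 - ‖z - 0‖) / (1 + ‖z - 0‖) := by
      rw [sub_zero]
      have := norm_nonneg z
      exact div_nonneg (by linarith) (by linarith)
    rw [herglotzRieszKernel_def]
    exact h5.trans h4

theorem Hz_zero (φ : ℂ → ℝ) : Hz φ 0 = ((circleAverage φ 0 1 : ℝ) : ℂ) := by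
  unfold Hz circleAverage
  rw [smul_eq_mul, Complex.ofReal_mul, Complex.real_smul, ← intervalIntegral.integral_ofReal]
  congr 1
  apply intervalIntegral.integral_congr
  intro θ _
  simp only
  have h1 : herglotzRieszKernel 0 0 (circleMap 0 1 θ) = 1 := by
    rw [herglotzRieszKernel_def]
    simp only [sub_zero, add_zero]
    apply div_self
    simp [circleMap]
  rw [h1, one_smul]

theorem avg_tendsto {φ : ℂ → ℝ} (h : CircleIntegrable φ 0 1) :
    Tendsto (fun N : ℕ => circleAverage (fun ζ => min (φ ζ + N) 0) 0 1) atTop (𝓝 0) := by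
  unfold circleAverage
  have h1 : Tendsto (fun N : ℕ => ∫ θ in (0 : ℝ)..2 * π, min (φ (circleMap 0 1 θ) + N) 0) atTop
      (𝓝 (∫ θ in (0 : ℝ)..2 * π, (0 : ℝ))) := by
    apply intervalIntegral.tendsto_integral_filter_of_dominated_convergence
      (fun θ => |φ (circleMap 0 1 θ)|)
    · refine Eventually.of_forall fun N => ?_
      have hm : AEStronglyMeasurable (fun θ => φ (circleMap 0 1 θ))
          (volume.restrict (uIoc 0 (2 * π))) := (intervalIntegrable_iff.1 h).aestronglyMeasurable
      exact (hm.add aestronglyMeasurable_const).inf aestronglyMeasurable_const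
    · refine Eventually.of_forall fun N => Eventually.of_forall fun θ _ => ?_
      rw [Real.norm_eq_abs, abs_le]
      have hN : (0 : ℝ) ≤ N := Nat.cast_nonneg N
      have h2 := neg_abs_le (φ (circleMap 0 1 θ))
      have h3 := abs_nonneg (φ (circleMap 0 1 θ))
      constructor
      · apply le_min <;> linarith
      · exact (min_le_right _ _).trans h3
    · exact IntervalIntegrable.abs h
    · refine Eventually.of_forall fun θ _ => ?_
      apply tendsto_const_nhds.congr'
      obtain ⟨N0, hN0⟩ := exists_nat_ge (-φ (circleMap 0 1 θ))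
      filter_upwards [eventually_ge_atTop N0] with N hN
      have : (N0 : ℝ) ≤ N := by exact_mod_cast hN
      rw [min_eq_right]
      linarith
  have h2 := h1.const_smul (2 * π)⁻¹
  simpa using h2

theorem ci_max {φ : ℂ → ℝ} (h : CircleIntegrable φ 0 1) (c : ℝ) :
    CircleIntegrable (fun ζ => max (φ ζ) c) 0 1 := by
  simp only [CircleIntegrable, intervalIntegrable_iff] at h ⊢
  have h1 : IntegrableOn (fun _ : ℝ => c) (uIoc 0 (2 * π)) :=
    integrableOn_const (by simp [uIoc]) (by simp)
  exact h.sup h1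

end Pool.Agent.V1179.DCyc
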