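import Mathlib
import Pool.Agent.V1179.DCyc.Conv
import Pool.Agent.Helper610.Bohr.Basic

set_option autoImplicit false

namespace Pool.Agent.V1179.DCyc

open MeasureTheory Set Metric Filter Topology
open scoped ENNReal

theorem aem_of_contOn {p : ℝ} {h : ℂ → ℂ} (hc : ContinuousOn h (ball 0 1)) :
    AEMeasurable h (nu p) := by
  have h1 : nu p ≪ volume.restrict (ball (0 : ℂ) 1) := withDensity_absolutelyContinuous _ _
  exact (hc.aemeasurable measurableSet_ball).mono_ac h1

theorem cauchy_est {g : ℂ → ℂ} (hg : DifferentiableOn ℂ g (ball 0 1)) {B : ℝ}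
    (hB : ∀ z : ℂ, ‖z‖ < 1 → ‖g z‖ ≤ B) {w : ℂ} (hw : ‖w‖ < 1) :
    ‖deriv g w‖ * (1 - ‖w‖) ≤ B := by
  have hd : 0 < 1 - ‖w‖ := by linarith
  have h1 : Tendsto (fun R : ℝ => ‖deriv g w‖ * R) (𝓝[<] (1 - ‖w‖))
      (𝓝 (‖deriv g w‖ * (1 - ‖w‖))) := by
    have : Continuous fun R : ℝ => ‖deriv g w‖ * R := by fun_prop
    exact (this.tendsto _).mono_left nhdsWithin_le_nhds
  refine le_of_tendsto h1 ?_
  have h2 : Ioo 0 (1 - ‖w‖) ∈ 𝓝[<] (1 - ‖w‖) := Ioo_mem_nhdsLT hd
  filter_upwards [h2] with R hR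
  have h3 : closedBall w R ⊆ ball 0 1 := by
    intro u hu
    rw [mem_closedBall, dist_eq_norm] at hu
    rw [mem_ball_zero_iff]
    calc ‖u‖ = ‖(u - w) + w‖ := by congr 1; ring
      _ ≤ ‖u - w‖ + ‖w‖ := norm_add_le _ _
      _ < 1 := by linarith [hR.2]
  have h4 : DiffContOnCl ℂ g (ball w R) := (hg.mono h3).diffContOnCl_ball (subset_refl _)
  have h5 := Complex.norm_deriv_le_of_forall_mem_sphere_norm_le hR.1 h4 (C := B) (fun u hu => by
    have := h3 (sphere_subset_closedBall hu)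
    exact hB u (by simpa using this))
  rw [le_div_iff₀ hR.1] at h5
  exact h5

/-- Radii. -/
noncomputable def rr (n : ℕ) : ℝ := 1 - 1 / (n + 2)

theorem rr_half (n : ℕ) : 1 / 2 ≤ rr n := by
  unfold rr
  have h1 : (0 : ℝ) ≤ n := Nat.cast_nonneg n
  have : 1 / ((n : ℝ) + 2) ≤ 1 / 2 := one_div_le_one_div_of_le (by norm_num) (by linarith)
  linarith

theorem rr_lt (n : ℕ) : rr n < 1 := by
  unfold rr
  have h1 : (0 : ℝ) ≤ n := Nat.cast_nonneg n
  have : 0 < 1 / ((n : ℝ) + 2) := by positivity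
  linarith

theorem rr_pos (n : ℕ) : 0 < rr n := by
  have := rr_half n
  linarith

theorem rr_tendsto : Tendsto rr atTop (𝓝 1) := by
  unfold rr
  have h1 : Tendsto (fun n : ℕ => 1 / ((n : ℝ) + 2)) atTop (𝓝 0) := by
    have h2 : Tendsto (fun n : ℕ => (n : ℝ) + 2) atTop atTop :=
      tendsto_atTop_add_const_right _ _ tendsto_natCast_atTop_atTop
    refine h2.inv_tendsto_atTop.congr fun n => ?_
    simp
  simpa using tendsto_const_nhds.sub h1

theorem mul_mem {r : ℝ} (hr0 : 0 ≤ r) (hr1 : r ≤ 1) {z : ℂ} (hz : ‖z‖ < 1) :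
    ‖(r : ℂ) * z‖ < 1 := by
  rw [norm_mul, Complex.norm_real, Real.norm_eq_abs, abs_of_nonneg hr0]
  nlinarith [norm_nonneg z]

theorem dil_le {p : ℝ} (hp : 1 < p) {G : ℂ → ℂ} (hG : Measurable G) {r : ℝ} (hr0 : 0 < r)
    (hr1 : r < 1) :
    ∫⁻ z, ‖(r : ℂ) * G (r * z)‖ₑ ^ p ∂(nu p) ≤
      ENNReal.ofReal (r ^ 2)⁻¹ * ∫⁻ z, ‖G z‖ₑ ^ p ∂(nu p) := by
  rw [lint_nu, lint_nu]
  set F : ℂ → ℝ≥0∞ := fun w => ENNReal.ofReal ((1 - ‖w‖) ^ (p - 1)) * ‖G w‖ₑ ^ p with hF
  have hmF : Measurable F := (measurable_wt p).mul (hG.enorm.pow_const _)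
  calc ∫⁻ z in ball (0 : ℂ) 1, ENNReal.ofReal ((1 - ‖z‖) ^ (p - 1)) * ‖(r : ℂ) * G (r * z)‖ₑ ^ p
      ≤ ∫⁻ z in ball (0 : ℂ) 1, F ((r : ℂ) * z) := by
        apply setLIntegral_mono' measurableSet_ball
        intro z hz
        have hz1 : ‖z‖ < 1 := by simpa using hz
        simp only [hF]
        apply mul_le_mul'
        · apply ENNReal.ofReal_le_ofReal
          apply Real.rpow_le_rpow (by linarith) _ (by linarith)
          rw [norm_mul, Complex.norm_real, Real.norm_eq_abs, abs_of_pos hr0]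
          nlinarith [norm_nonneg z]
        · gcongr
          rw [enorm_mul]
          have : ‖(r : ℂ)‖ₑ ≤ 1 := by
            rw [← ofReal_norm, Complex.norm_real, Real.norm_eq_abs, abs_of_pos hr0]
            exact ENNReal.ofReal_le_one.2 hr1.le
          calc ‖(r : ℂ)‖ₑ * ‖G (r * z)‖ₑ ≤ 1 * ‖G (r * z)‖ₑ := by gcongr
            _ = _ := one_mul _
    _ = ENNReal.ofReal (r ^ 2)⁻¹ * ∫⁻ w in ball (0 : ℂ) r, F w := scale hr0 hmF
    _ ≤ ENNReal.ofReal (r ^ 2)⁻¹ * ∫⁻ w in ball (0 : ℂ) 1, F w := by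
        gcongr
    _ = _ := rfl

theorem diffAt {h : ℂ → ℂ} (hh : DifferentiableOn ℂ h (ball 0 1)) {z : ℂ} (hz : ‖z‖ < 1) :
    DifferentiableAt ℂ h z := by
  have hz' : z ∈ ball (0 : ℂ) 1 := by simpa using hz
  exact (hh z hz').differentiableAt (isOpen_ball.mem_nhds hz')

theorem hasDeriv_dil {g : ℂ → ℂ} (hg : DifferentiableOn ℂ g (ball 0 1)) {r : ℝ} (hr0 : 0 ≤ r)
    (hr1 : r ≤ 1) {z : ℂ} (hz : ‖z‖ < 1) :
    HasDerivAt (fun w : ℂ => g (r * w)) (r * deriv g (r * z)) z := by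
  have h1 := (diffAt hg (mul_mem hr0 hr1 hz)).hasDerivAt
  have h2 : HasDerivAt (fun w : ℂ => (r : ℂ) * w) (r * 1) z := (hasDerivAt_id z).const_mul _
  have h3 := h1.comp z h2
  refine h3.congr_deriv ?_
  ring

theorem add3 {p : ℝ} (hp : 1 ≤ p) (a b c : ℂ) :
    ‖a + b + c‖ₑ ^ p ≤ 2 ^ (p - 1) * (2 ^ (p - 1) * (‖a‖ₑ ^ p + ‖b‖ₑ ^ p) + ‖c‖ₑ ^ p) := by
  calc ‖a + b + c‖ₑ ^ p ≤ (‖a + b‖ₑ + ‖c‖ₑ) ^ p := by
        gcongr
        exact enorm_add_le _ _
    _ ≤ 2 ^ (p - 1) * (‖a + b‖ₑ ^ p + ‖c‖ₑ ^ p) := ENNReal.rpow_add_le_mul_rpow_add_rpow _ _ hp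
    _ ≤ 2 ^ (p - 1) * ((‖a‖ₑ + ‖b‖ₑ) ^ p + ‖c‖ₑ ^ p) := by
        gcongr
        exact enorm_add_le _ _
    _ ≤ _ := by
        gcongr
        exact ENNReal.rpow_add_le_mul_rpow_add_rpow _ _ hp

theorem conv_main {p : ℝ} (hp : 2 < p) {f g : ℂ → ℂ} (hf : DifferentiableOn ℂ f (ball 0 1))
    (hg : DifferentiableOn ℂ g (ball 0 1)) {B : ℝ} (hB : ∀ z : ℂ, ‖z‖ < 1 → ‖g z‖ ≤ B)
    (hfin : ∫⁻ z, ‖deriv f z‖ₑ ^ p ∂(nu p) < ∞)
    (hF : ∫⁻ z, ‖deriv (fun w => g w * f w) z‖ₑ ^ p ∂(nu p) < ∞) :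
    Tendsto (fun n : ℕ => ∫⁻ z, ‖deriv (fun w => g (rr n * w) * f w) z -
      deriv (fun w => g w * f w) z‖ₑ ^ p ∂(nu p)) atTop (𝓝 0) := by
  have hp0 : 0 < p := by linarith
  have hp1 : 1 ≤ p := by linarith
  have hB0 : 0 ≤ B := (norm_nonneg _).trans (hB 0 (by simp))
  have hfd : DifferentiableOn ℂ (deriv f) (ball 0 1) := hf.deriv isOpen_ball
  have hgd : DifferentiableOn ℂ (deriv g) (ball 0 1) := hg.deriv isOpen_ball
  set G : ℂ → ℂ := (ball (0 : ℂ) 1).indicator fun w => deriv g w * f w with hG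
  have hGc : ContinuousOn (fun w => deriv g w * f w) (ball (0 : ℂ) 1) :=
    hgd.continuousOn.mul hf.continuousOn
  have hGm : Measurable G := by
    classical
    have h1 : G = (ball (0 : ℂ) 1).piecewise (fun w => deriv g w * f w) (fun _ => 0) := by
      funext z
      rw [hG]
      by_cases hz : z ∈ ball (0 : ℂ) 1
      · rw [indicator_of_mem hz, piecewise_eq_of_mem _ _ _ hz]
      · rw [indicator_of_notMem hz, piecewise_eq_of_notMem _ _ _ hz]
    rw [h1]
    exact hGc.measurable_piecewise continuousOn_const measurableSet_ball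
  have hGe : ∀ z : ℂ, ‖z‖ < 1 → G z = deriv g z * f z := by
    intro z hz
    rw [hG, indicator_of_mem (show z ∈ ball (0 : ℂ) 1 by simpa using hz)]
  have hpr : ∀ z : ℂ, ‖z‖ < 1 → deriv (fun w => g w * f w) z = G z + g z * deriv f z := by
    intro z hz
    have := ((diffAt hg hz).hasDerivAt.mul (diffAt hf hz).hasDerivAt).deriv
    rw [hGe z hz]
    exact this
  have hprn : ∀ n : ℕ, ∀ z : ℂ, ‖z‖ < 1 → deriv (fun w => g (rr n * w) * f w) z =
      rr n * deriv g (rr n * z) * f z + g (rr n * z) * deriv f z := by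
    intro n z hz
    exact ((hasDeriv_dil hg (rr_pos n).le (rr_lt n).le hz).mul (diffAt hf hz).hasDerivAt).deriv
  -- `G` is in `L^p`
  have hGfin : ∫⁻ z, ‖G z‖ₑ ^ p ∂(nu p) < ∞ := by
    have h1 : ∀ᵐ z ∂(nu p), ‖G z‖ₑ ^ p ≤ 2 ^ (p - 1) *
        (‖deriv (fun w => g w * f w) z‖ₑ ^ p + ENNReal.ofReal B ^ p * ‖deriv f z‖ₑ ^ p) := by
      apply ae_nu_of_ball
      intro z hz
      have h2 : G z = deriv (fun w => g w * f w) z - g z * deriv f z := by
        rw [hpr z hz]; ring
      rw [h2]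
      calc ‖deriv (fun w => g w * f w) z - g z * deriv f z‖ₑ ^ p
          ≤ (‖deriv (fun w => g w * f w) z‖ₑ + ‖g z * deriv f z‖ₑ) ^ p := by
            gcongr
            exact enorm_sub_le
        _ ≤ 2 ^ (p - 1) * (‖deriv (fun w => g w * f w) z‖ₑ ^ p + ‖g z * deriv f z‖ₑ ^ p) :=
            ENNReal.rpow_add_le_mul_rpow_add_rpow _ _ hp1
        _ ≤ _ := by
            gcongr
            rw [enorm_mul, ENNReal.mul_rpow_of_nonneg _ _ hp0.le]
            gcongr
            rw [← ofReal_norm]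
            exact ENNReal.ofReal_le_ofReal (hB z hz)
    refine (lintegral_mono_ae h1).trans_lt ?_
    rw [lintegral_const_mul' _ _ (ENNReal.rpow_ne_top_of_nonneg (by linarith) (by norm_num)),
      lintegral_add_right _ ((measurable_deriv f).enorm.pow_const _ |>.const_mul _),
      lintegral_const_mul _ ((measurable_deriv f).enorm.pow_const _)]
    apply ENNReal.mul_lt_top
    · exact ENNReal.rpow_lt_top_of_nonneg (by linarith) (by norm_num)
    · exact ENNReal.add_lt_top.2 ⟨hF, ENNReal.mul_lt_top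
        (ENNReal.rpow_lt_top_of_nonneg hp0.le ENNReal.ofReal_ne_top) hfin⟩
  have hcrr : ∀ z : ℂ, Tendsto (fun n => ((rr n : ℝ) : ℂ) * z) atTop (𝓝 z) := by
    intro z
    have h1 := ((Complex.continuous_ofReal.tendsto 1).comp rr_tendsto).mul_const z
    simpa using h1
  have hcomp : ∀ {h : ℂ → ℂ}, ContinuousOn h (ball 0 1) → ∀ z : ℂ, ‖z‖ < 1 →
      Tendsto (fun n => h ((rr n : ℝ) * z)) atTop (𝓝 (h z)) := by
    intro h hh z hz
    have h1 : ContinuousAt h z := hh.continuousAt (isOpen_ball.mem_nhds (by simpa using hz))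
    exact h1.tendsto.comp (hcrr z)
  -- first term
  have hA : Tendsto (fun n : ℕ => ∫⁻ z, ‖(rr n : ℂ) * G (rr n * z) - G z‖ₑ ^ p ∂(nu p)) atTop
      (𝓝 0) := by
    refine scheffe hp1 (g := fun n z => (rr n : ℂ) * G (rr n * z)) ?_ hGm.aemeasurable ?_
      (c := fun n => ENNReal.ofReal ((rr n) ^ 2)⁻¹) ?_ ?_ hGfin
    · intro n
      exact ((hGm.comp (by fun_prop)).const_mul _).aemeasurable
    · apply ae_nu_of_ball
      intro z hz
      have h1 : Tendsto (fun n => ((rr n : ℝ) : ℂ) * (deriv g (rr n * z) * f (rr n * z))) atTop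
          (𝓝 (1 * (deriv g z * f z))) := by
        apply Tendsto.mul
        · exact (Complex.continuous_ofReal.tendsto 1).comp rr_tendsto
        · exact hcomp hGc z hz
      rw [hGe z hz]
      rw [one_mul] at h1
      refine h1.congr fun n => ?_
      rw [hGe _ (mul_mem (rr_pos n).le (rr_lt n).le hz)]
    · have h1 : Tendsto (fun n => ((rr n) ^ 2)⁻¹) atTop (𝓝 ((1 : ℝ) ^ 2)⁻¹) :=
        (rr_tendsto.pow 2).inv₀ (by norm_num)
      have h2 := (ENNReal.continuous_ofReal.tendsto _).comp h1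
      simpa [Function.comp_def] using h2
    · intro n
      exact dil_le (by linarith) hGm (rr_pos n) (rr_lt n)
  -- second term
  have hBt : Tendsto (fun n : ℕ => ∫⁻ z, ‖(rr n : ℂ) * deriv g (rr n * z) *
      (f z - f (rr n * z))‖ₑ ^ p ∂(nu p)) atTop (𝓝 0) := by
    rw [← lintegral_zero (μ := nu p)]
    apply tendsto_lintegral_of_dominated_convergence'
      (fun z => (ENNReal.ofReal B * Hd (deriv f) z) ^ p)
    · intro n
      apply AEMeasurable.pow_const
      apply AEMeasurable.enorm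
      apply aem_of_contOn
      have hmaps : MapsTo (fun z : ℂ => (rr n : ℂ) * z) (ball 0 1) (ball 0 1) := by
        intro z hz
        simpa using mul_mem (rr_pos n).le (rr_lt n).le (by simpa using hz)
      apply ContinuousOn.mul
      · apply ContinuousOn.mul continuousOn_const
        exact hgd.continuousOn.comp (by fun_prop) hmaps
      · apply hf.continuousOn.sub
        exact hf.continuousOn.comp (by fun_prop) hmaps
    · intro n
      apply ae_nu_of_ball
      intro z hz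
      beta_reduce
      gcongr
      have hw := mul_mem (rr_pos n).le (rr_lt n).le hz
      have hnw : ‖(rr n : ℂ) * z‖ = rr n * ‖z‖ := by
        rw [norm_mul, Complex.norm_real, Real.norm_eq_abs, abs_of_pos (rr_pos n)]
      have h1 := cauchy_est hg hB hw
      rw [hnw] at h1 hw
      have h2 : 0 < 1 - rr n * ‖z‖ := by linarith
      rw [enorm_mul]
      calc ‖(rr n : ℂ) * deriv g (rr n * z)‖ₑ * ‖f z - f (rr n * z)‖ₑ
          ≤ ENNReal.ofReal (B / (1 - rr n * ‖z‖)) *
            (ENNReal.ofReal (1 - rr n * ‖z‖) * Hd (deriv f) z) := by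
            apply mul_le_mul'
            · rw [← ofReal_norm]
              apply ENNReal.ofReal_le_ofReal
              rw [le_div_iff₀ h2, norm_mul, Complex.norm_real, Real.norm_eq_abs,
                abs_of_pos (rr_pos n)]
              have h3 := rr_lt n
              have h4 := rr_pos n
              have h5 := norm_nonneg (deriv g (rr n * z))
              calc rr n * ‖deriv g (rr n * z)‖ * (1 - rr n * ‖z‖)
                  = rr n * (‖deriv g (rr n * z)‖ * (1 - rr n * ‖z‖)) := by ring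
                _ ≤ 1 * (‖deriv g (rr n * z)‖ * (1 - rr n * ‖z‖)) := by gcongr
                _ ≤ B := by rw [one_mul]; exact h1
            · exact diff_le hf hz (rr_half n) (rr_lt n)
        _ = ENNReal.ofReal B * Hd (deriv f) z := by
            rw [← mul_assoc, ← ENNReal.ofReal_mul (by positivity), div_mul_cancel₀ _ h2.ne']
    · have h1 : ∫⁻ z, (ENNReal.ofReal B * Hd (deriv f) z) ^ p ∂(nu p)
          = ENNReal.ofReal B ^ p * ∫⁻ z, Hd (deriv f) z ^ p ∂(nu p) := by
        rw [← lintegral_const_mul' _ _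
          (ENNReal.rpow_ne_top_of_nonneg hp0.le ENNReal.ofReal_ne_top)]
        apply lintegral_congr
        intro z
        rw [ENNReal.mul_rpow_of_nonneg _ _ hp0.le]
      rw [h1]
      apply ENNReal.mul_ne_top (ENNReal.rpow_ne_top_of_nonneg hp0.le ENNReal.ofReal_ne_top)
      exact ((hardy hp (measurable_deriv f)).trans_lt
        (ENNReal.mul_lt_top (by norm_num) hfin)).ne
    · apply ae_nu_of_ball
      intro z hz
      have t1 : Tendsto (fun n => (rr n : ℂ) * deriv g (rr n * z) * (f z - f (rr n * z))) atTop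
          (𝓝 (1 * deriv g z * (f z - f z))) := by
        apply Tendsto.mul
        · apply Tendsto.mul
          · exact (Complex.continuous_ofReal.tendsto 1).comp rr_tendsto
          · exact hcomp hgd.continuousOn z hz
        · exact tendsto_const_nhds.sub (hcomp hf.continuousOn z hz)
      rw [sub_self, mul_zero] at t1
      have t2 := (ENNReal.continuous_rpow_const (y := p)).tendsto _ |>.comp t1.enorm
      rw [enorm_zero, ENNReal.zero_rpow_of_pos hp0] at t2
      exact t2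
  -- third term
  have hCt : Tendsto (fun n : ℕ => ∫⁻ z, ‖(g (rr n * z) - g z) * deriv f z‖ₑ ^ p ∂(nu p)) atTop
      (𝓝 0) := by
    rw [← lintegral_zero (μ := nu p)]
    apply tendsto_lintegral_of_dominated_convergence'
      (fun z => (ENNReal.ofReal (2 * B) * ‖deriv f z‖ₑ) ^ p)
    · intro n
      apply AEMeasurable.pow_const
      apply AEMeasurable.enorm
      apply aem_of_contOn
      have hmaps : MapsTo (fun z : ℂ => (rr n : ℂ) * z) (ball 0 1) (ball 0 1) := by
        intro z hz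
        simpa using mul_mem (rr_pos n).le (rr_lt n).le (by simpa using hz)
      apply ContinuousOn.mul _ hfd.continuousOn
      exact (hg.continuousOn.comp (by fun_prop) hmaps).sub hg.continuousOn
    · intro n
      apply ae_nu_of_ball
      intro z hz
      beta_reduce
      gcongr
      rw [enorm_mul]
      gcongr
      rw [← ofReal_norm]
      apply ENNReal.ofReal_le_ofReal
      calc ‖g (rr n * z) - g z‖ ≤ ‖g (rr n * z)‖ + ‖g z‖ := norm_sub_le _ _
        _ ≤ B + B := add_le_add (hB _ (mul_mem (rr_pos n).le (rr_lt n).le hz)) (hB z hz)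
        _ = 2 * B := by ring
    · have h1 : ∫⁻ z, (ENNReal.ofReal (2 * B) * ‖deriv f z‖ₑ) ^ p ∂(nu p)
          = ENNReal.ofReal (2 * B) ^ p * ∫⁻ z, ‖deriv f z‖ₑ ^ p ∂(nu p) := by
        rw [← lintegral_const_mul' _ _
          (ENNReal.rpow_ne_top_of_nonneg hp0.le ENNReal.ofReal_ne_top)]
        apply lintegral_congr
        intro z
        rw [ENNReal.mul_rpow_of_nonneg _ _ hp0.le]
      rw [h1]
      exact ENNReal.mul_ne_top (ENNReal.rpow_ne_top_of_nonneg hp0.le ENNReal.ofReal_ne_top)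
        hfin.ne
    · apply ae_nu_of_ball
      intro z hz
      have t1 : Tendsto (fun n => (g (rr n * z) - g z) * deriv f z) atTop
          (𝓝 ((g z - g z) * deriv f z)) :=
        ((hcomp hg.continuousOn z hz).sub_const _).mul_const _
      rw [sub_self, zero_mul] at t1
      have t2 := (ENNReal.continuous_rpow_const (y := p)).tendsto _ |>.comp t1.enorm
      rw [enorm_zero, ENNReal.zero_rpow_of_pos hp0] at t2
      exact t2
  -- sum
  have hK : (2 : ℝ≥0∞) ^ (p - 1) ≠ ∞ :=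
    ENNReal.rpow_ne_top_of_nonneg (by linarith) (by norm_num)
  have hlim : Tendsto (fun n : ℕ => (2 : ℝ≥0∞) ^ (p - 1) * (2 ^ (p - 1) *
      (∫⁻ z, ‖(rr n : ℂ) * G (rr n * z) - G z‖ₑ ^ p ∂(nu p) +
      ∫⁻ z, ‖(rr n : ℂ) * deriv g (rr n * z) * (f z - f (rr n * z))‖ₑ ^ p ∂(nu p)) +
      ∫⁻ z, ‖(g (rr n * z) - g z) * deriv f z‖ₑ ^ p ∂(nu p))) atTop (𝓝 0) := by
    have t1 := ENNReal.Tendsto.const_mul (hA.add hBt) (Or.inr hK)
    have t2 := ENNReal.Tendsto.const_mul (t1.add hCt) (Or.inr hK)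
    simpa using t2
  refine tendsto_of_tendsto_of_tendsto_of_le_of_le tendsto_const_nhds hlim
    (fun n => zero_le) fun n => ?_
  have hmaps : MapsTo (fun z : ℂ => (rr n : ℂ) * z) (ball 0 1) (ball 0 1) := by
    intro z hz
    simpa using mul_mem (rr_pos n).le (rr_lt n).le (by simpa using hz)
  have hm3 : AEMeasurable (fun z => ‖(g (rr n * z) - g z) * deriv f z‖ₑ ^ p) (nu p) := by
    apply AEMeasurable.pow_const
    apply AEMeasurable.enorm
    apply aem_of_contOn
    apply ContinuousOn.mul _ hfd.continuousOn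
    exact (hg.continuousOn.comp (by fun_prop) hmaps).sub hg.continuousOn
  have hm2 : AEMeasurable (fun z => ‖(rr n : ℂ) * deriv g (rr n * z) *
      (f z - f (rr n * z))‖ₑ ^ p) (nu p) := by
    apply AEMeasurable.pow_const
    apply AEMeasurable.enorm
    apply aem_of_contOn
    apply ContinuousOn.mul
    · apply ContinuousOn.mul continuousOn_const
      exact hgd.continuousOn.comp (by fun_prop) hmaps
    · apply hf.continuousOn.sub
      exact hf.continuousOn.comp (by fun_prop) hmaps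
  simp only
  rw [← lintegral_add_right' _ hm2, ← lintegral_const_mul' _ _ hK,
    ← lintegral_add_right' _ hm3, ← lintegral_const_mul' _ _ hK]
  apply lintegral_mono_ae
  apply ae_nu_of_ball
  intro z hz
  refine le_trans (le_of_eq ?_) (add3 hp1 _ _ _)
  congr 2
  rw [hprn n z hz, hpr z hz, hGe _ (mul_mem (rr_pos n).le (rr_lt n).le hz)]
  ring

end Pool.Agent.V1179.DCyc
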