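import Mathlib
import Pool.Agent.V1179.DCyc.Approx

set_option autoImplicit false

namespace Pool.Agent.V1179.DCyc

open MeasureTheory Set Metric Filter Topology
open scoped ENNReal
open Pool.Agent.Helper610.Bohr (PS coeff)

/-- Polynomial multipliers approximate the dilations of an analytic multiplier. -/
theorem poly_approx {p : ℝ} (hp : 2 < p) {f g : ℂ → ℂ} (hf : DifferentiableOn ℂ f (ball 0 1))
    (hg : DifferentiableOn ℂ g (ball 0 1)) (hfin : ∫⁻ z, ‖deriv f z‖ₑ ^ p ∂(nu p) < ∞) {r : ℝ}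
    (hr0 : 0 < r) (hr1 : r < 1) {ε : ℝ≥0∞} (hε : 0 < ε) :
    ∃ q : Polynomial ℂ, q.eval 0 = g 0 ∧
      ∫⁻ z, ‖deriv (fun w => q.eval w * f w) z - deriv (fun w => g (r * w) * f w) z‖ₑ ^ p
        ∂(nu p) < ε := by
  have hp0 : 0 < p := by linarith
  have hp1 : 1 ≤ p := by linarith
  have hps := PS.of_diff hg
  set a := coeff g with ha
  set s : ℝ := (r + 1) / 2 with hs
  have hs0 : 0 < s := by rw [hs]; linarith
  have hs1 : s < 1 := by rw [hs]; linarith
  set R : ℝ := s / r with hR
  have hR1 : 1 < R := by rw [hR, one_lt_div hr0, hs]; linarith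
  have hrR : r * R = s := by rw [hR]; field_simp
  have hsum := hps.summable_norm hs0.le hs1
  set t : ℕ → ℝ := fun m => ∑' k, ‖a (k + m)‖ * s ^ (k + m) with ht
  have ht0 : ∀ m, 0 ≤ t m := fun m => tsum_nonneg fun k => by positivity
  have htt : Tendsto t atTop (𝓝 0) := tendsto_sum_nat_add fun n => ‖a n‖ * s ^ n
  let T : ℕ → Polynomial ℂ := fun m =>
    ∑ n ∈ Finset.range m, Polynomial.C (a n * (r : ℂ) ^ n) * Polynomial.X ^ n
  have hT : ∀ m (z : ℂ), (T m).eval z = ∑ n ∈ Finset.range m, a n * ((r : ℂ) * z) ^ n := by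
    intro m z
    simp only [T, Polynomial.eval_finsetSum, Polynomial.eval_mul, Polynomial.eval_C,
      Polynomial.eval_pow, Polynomial.eval_X]
    apply Finset.sum_congr rfl
    intro n _
    rw [mul_pow]; ring
  have hbound : ∀ m (z : ℂ), ‖z‖ ≤ R → ‖(T m).eval z - g (r * z)‖ ≤ t m := by
    intro m z hz
    have hrz : ‖(r : ℂ) * z‖ ≤ s := by
      rw [norm_mul, Complex.norm_real, Real.norm_eq_abs, abs_of_pos hr0, ← hrR]
      gcongr
    have h1 := hps _ (hrz.trans_lt hs1)
    have h2 := (hasSum_nat_add_iff' m).2 h1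
    rw [hT, norm_sub_rev, ← h2.tsum_eq]
    have h3 : Summable fun k => ‖a (k + m)‖ * s ^ (k + m) :=
      (summable_nat_add_iff m).2 hsum
    apply tsum_of_norm_bounded h3.hasSum
    intro k
    rw [norm_mul, norm_pow]
    gcongr
  have hdiff : ∀ m, DifferentiableOn ℂ (fun z => (T m).eval z - g (r * z)) (ball 0 (1 / r)) := by
    intro m
    apply (T m).differentiable.differentiableOn.sub
    apply hg.comp (by fun_prop)
    intro z hz
    rw [mem_ball_zero_iff] at hz ⊢
    rw [norm_mul, Complex.norm_real, Real.norm_eq_abs, abs_of_pos hr0]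
    rw [lt_div_iff₀ hr0] at hz
    linarith
  have hRr : R < 1 / r := by
    rw [hR]
    gcongr
  have hder : ∀ m (z : ℂ), ‖z‖ < 1 →
      ‖deriv (fun z => (T m).eval z - g (r * z)) z‖ ≤ t m / (R - 1) := by
    intro m z hz
    have hsub : closedBall z (R - 1) ⊆ closedBall 0 R := by
      intro u hu
      rw [mem_closedBall, dist_eq_norm] at hu
      rw [mem_closedBall_zero_iff]
      calc ‖u‖ = ‖(u - z) + z‖ := by congr 1; ring
        _ ≤ ‖u - z‖ + ‖z‖ := norm_add_le _ _
        _ ≤ R := by linarith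
    apply Complex.norm_deriv_le_of_forall_mem_sphere_norm_le (by linarith)
    · apply DifferentiableOn.diffContOnCl_ball (U := ball 0 (1 / r))
      · exact hdiff m
      · exact hsub.trans (closedBall_subset_ball hRr)
    · intro u hu
      exact hbound m u (by simpa using hsub (sphere_subset_closedBall hu))
  have hK : (2 : ℝ≥0∞) ^ (p - 1) ≠ ∞ :=
    ENNReal.rpow_ne_top_of_nonneg (by linarith) (by norm_num)
  have hle : ∀ m, ∫⁻ z, ‖deriv (fun w => (T m).eval w * f w) z -
      deriv (fun w => g (r * w) * f w) z‖ₑ ^ p ∂(nu p) ≤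
      2 ^ (p - 1) * (ENNReal.ofReal (t m / (R - 1)) ^ p * ∫⁻ z, ‖f z‖ₑ ^ p ∂(nu p) +
        ENNReal.ofReal (t m) ^ p * ∫⁻ z, ‖deriv f z‖ₑ ^ p ∂(nu p)) := by
    intro m
    rw [← lintegral_const_mul' _ _ (ENNReal.rpow_ne_top_of_nonneg hp0.le ENNReal.ofReal_ne_top),
      ← lintegral_const_mul' _ _ (ENNReal.rpow_ne_top_of_nonneg hp0.le ENNReal.ofReal_ne_top),
      ← lintegral_add_right _ ((measurable_deriv f).enorm.pow_const _ |>.const_mul _),
      ← lintegral_const_mul' _ _ hK]
    apply lintegral_mono_ae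
    apply ae_nu_of_ball
    intro z hz
    have hz2 : z ∈ ball (0 : ℂ) (1 / r) := by
      rw [mem_ball_zero_iff]
      have : 1 < 1 / r := hR1.trans hRr
      linarith
    have hq : DifferentiableAt ℂ (fun z => (T m).eval z - g (r * z)) z :=
      ((hdiff m) z hz2).differentiableAt (isOpen_ball.mem_nhds hz2)
    have h1 : deriv (fun w => (T m).eval w * f w) z - deriv (fun w => g (r * w) * f w) z =
        deriv (fun z => (T m).eval z - g (r * z)) z * f z +
          ((T m).eval z - g (r * z)) * deriv f z := by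
      have h2 := (hq.hasDerivAt.mul (diffAt hf hz).hasDerivAt).deriv
      have h3 := ((T m).hasDerivAt z).mul (diffAt hf hz).hasDerivAt
      have h4 := (hasDeriv_dil hg hr0.le hr1.le hz).mul (diffAt hf hz).hasDerivAt
      have h5 : deriv (fun w => (T m).eval w - g (r * w)) z =
          (Polynomial.derivative (T m)).eval z - r * deriv g (r * z) :=
        (((T m).hasDerivAt z).sub (hasDeriv_dil hg hr0.le hr1.le hz)).deriv
      have h3' := h3.deriv
      have h4' := h4.deriv
      simp only [Pi.mul_def] at h3' h4'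
      rw [h3', h4', h5]
      ring
    rw [h1]
    calc ‖deriv (fun z => (T m).eval z - g (r * z)) z * f z +
          ((T m).eval z - g (r * z)) * deriv f z‖ₑ ^ p
        ≤ (‖deriv (fun z => (T m).eval z - g (r * z)) z * f z‖ₑ +
          ‖((T m).eval z - g (r * z)) * deriv f z‖ₑ) ^ p := by
          gcongr
          exact enorm_add_le _ _
      _ ≤ 2 ^ (p - 1) * (‖deriv (fun z => (T m).eval z - g (r * z)) z * f z‖ₑ ^ p +
          ‖((T m).eval z - g (r * z)) * deriv f z‖ₑ ^ p) :=
          ENNReal.rpow_add_le_mul_rpow_add_rpow _ _ hp1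
      _ ≤ _ := by
          gcongr
          · rw [enorm_mul, ENNReal.mul_rpow_of_nonneg _ _ hp0.le]
            gcongr
            rw [← ofReal_norm]
            exact ENNReal.ofReal_le_ofReal (hder m z hz)
          · rw [enorm_mul, ENNReal.mul_rpow_of_nonneg _ _ hp0.le]
            gcongr
            rw [← ofReal_norm]
            exact ENNReal.ofReal_le_ofReal (hbound m z (hz.le.trans hR1.le))
  have hlim : Tendsto (fun m => 2 ^ (p - 1) *
      (ENNReal.ofReal (t m / (R - 1)) ^ p * ∫⁻ z, ‖f z‖ₑ ^ p ∂(nu p) +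
        ENNReal.ofReal (t m) ^ p * ∫⁻ z, ‖deriv f z‖ₑ ^ p ∂(nu p))) atTop (𝓝 0) := by
    have h1 : Tendsto (fun m => ENNReal.ofReal (t m) ^ p) atTop (𝓝 0) := by
      have h2 := (ENNReal.continuous_rpow_const (y := p)).tendsto _ |>.comp
        ((ENNReal.continuous_ofReal.tendsto _).comp htt)
      rw [ENNReal.ofReal_zero, ENNReal.zero_rpow_of_pos hp0] at h2
      exact h2
    have h3 : Tendsto (fun m => ENNReal.ofReal (t m / (R - 1)) ^ p) atTop (𝓝 0) := by
      have h4 := htt.div_const (R - 1)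
      rw [zero_div] at h4
      have h2 := (ENNReal.continuous_rpow_const (y := p)).tendsto _ |>.comp
        ((ENNReal.continuous_ofReal.tendsto _).comp h4)
      rw [ENNReal.ofReal_zero, ENNReal.zero_rpow_of_pos hp0] at h2
      exact h2
    have h5 := ENNReal.Tendsto.mul_const (b := ∫⁻ z, ‖f z‖ₑ ^ p ∂(nu p)) h3
      (Or.inr (lp_self hp hf hfin).ne)
    have h6 := ENNReal.Tendsto.mul_const (b := ∫⁻ z, ‖deriv f z‖ₑ ^ p ∂(nu p)) h1
      (Or.inr hfin.ne)
    have h7 := ENNReal.Tendsto.const_mul (h5.add h6) (Or.inr hK)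
    simpa using h7
  obtain ⟨m, hm, hm1⟩ := ((hlim.eventually (gt_mem_nhds hε)).and (eventually_ge_atTop 1)).exists
  refine ⟨T m, ?_, (hle m).trans_lt hm⟩
  rw [hT, mul_zero]
  have h8 : g 0 = a 0 := by
    rw [ha]
    unfold coeff
    simp
  rw [h8]
  obtain ⟨k, rfl⟩ := Nat.exists_eq_add_of_le hm1
  rw [add_comm 1 k, Finset.sum_range_succ']
  simp

end Pool.Agent.V1179.DCyc
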